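import Pool.Agent.Helper33.HD.Lattice

/-! Helper33: configurations on cubes of heights: the slopes on level `i` are determined by the cube sums. -/

namespace Pool.Agent.Helper33.HD

open Finset
open scoped Classical

variable {ι : Type*} [Fintype ι]

/-- Moebius coefficients of the cube sums -/
noncomputable def acoef (t0 : ℝ) (p : ι → ℝ) (α ξ : Finset ι → ℝ) (S : Finset ι) : ℝ :=
  α S + (t0 + ∑ l ∈ S, p l) * ξ S + ∑ l ∈ S, p l * ξ (S.erase l)

/-- exchange of sums -/
theorem sum_pairs (p : ι → ℝ) (ξ : Finset ι → ℝ) (ω : Finset ι) :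
    ∑ S ∈ ω.powerset, ∑ l ∈ S, p l * ξ (S.erase l) =
      ∑ S ∈ ω.powerset, ∑ l ∈ ω \ S, p l * ξ S := by
  rw [Finset.sum_sigma', Finset.sum_sigma']
  refine Finset.sum_bij' (fun z _ => ⟨z.1.erase z.2, z.2⟩) (fun z _ => ⟨insert z.2 z.1, z.2⟩)
    ?_ ?_ ?_ ?_ ?_
  · rintro ⟨S, l⟩ hz
    simp only [mem_sigma, mem_powerset, mem_sdiff] at hz ⊢
    refine ⟨(erase_subset _ _).trans hz.1, hz.1 hz.2, ?_⟩
    simp
  · rintro ⟨S, l⟩ hz
    simp only [mem_sigma, mem_powerset, mem_sdiff] at hz ⊢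
    exact ⟨insert_subset hz.2.1 hz.1, mem_insert_self _ _⟩
  · rintro ⟨S, l⟩ hz
    simp only [mem_sigma, mem_powerset] at hz
    simp only [insert_erase hz.2]
  · rintro ⟨S, l⟩ hz
    simp only [mem_sigma, mem_powerset, mem_sdiff] at hz
    simp only [erase_insert hz.2.2]
  · rintro ⟨S, l⟩ _
    rfl

theorem sum_acoef (t0 : ℝ) (p : ι → ℝ) (α ξ : Finset ι → ℝ) (ω : Finset ι) :
    ∑ S ∈ ω.powerset, acoef t0 p α ξ S =
      ∑ S ∈ ω.powerset, (α S + (t0 + ∑ l ∈ ω, p l) * ξ S) := by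
  unfold acoef
  rw [Finset.sum_add_distrib, sum_pairs, ← Finset.sum_add_distrib]
  apply Finset.sum_congr rfl
  intro S hS
  rw [mem_powerset] at hS
  rw [← Finset.sum_mul, ← Finset.sum_sdiff hS]
  ring

theorem acoef_bound (t0 : ℝ) (p : ι → ℝ) (α ξ : Finset ι → ℝ) (k : ℕ) (ε : ℝ)
    (h : ∀ ω : Finset ι, ω.card ≤ k →
      |∑ S ∈ ω.powerset, (α S + (t0 + ∑ l ∈ ω, p l) * ξ S)| ≤ ε) :
    ∀ n : ℕ, ∀ T : Finset ι, T.card ≤ k → T.card ≤ n →
      |acoef t0 p α ξ T| ≤ 2 ^ (Fintype.card ι * T.card) * ε := by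
  have hε : 0 ≤ ε := le_trans (abs_nonneg _) (h ∅ (by simp))
  intro n
  induction n with
  | zero =>
    intro T _ hT
    have : T = ∅ := Finset.card_eq_zero.mp (by omega)
    subst this
    have h1 := sum_acoef t0 p α ξ ∅
    rw [Finset.powerset_empty, Finset.sum_singleton] at h1
    rw [h1]
    have h2 := h ∅ (by simp)
    rw [Finset.powerset_empty] at h2
    simpa using h2
  | succ n ih =>
    intro T hTk hT
    by_cases h0 : T.card ≤ n
    · exact ih T hTk h0
    have h1 := sum_acoef t0 p α ξ T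
    have h2 : T ∈ T.powerset := mem_powerset_self T
    rw [← Finset.add_sum_erase _ _ h2] at h1
    have h3 : acoef t0 p α ξ T = ∑ S ∈ T.powerset, (α S + (t0 + ∑ l ∈ T, p l) * ξ S) -
        ∑ S ∈ T.powerset.erase T, acoef t0 p α ξ S := by linarith
    have h4 : ∀ S ∈ T.powerset.erase T, |acoef t0 p α ξ S| ≤ 2 ^ (Fintype.card ι * n) * ε := by
      intro S hS
      rw [mem_erase, mem_powerset] at hS
      have h5 : S.card < T.card := Finset.card_lt_card (lt_of_le_of_ne hS.2 hS.1)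
      refine (ih S (by omega) (by omega)).trans ?_
      have h6 : Fintype.card ι * S.card ≤ Fintype.card ι * n := Nat.mul_le_mul_left _ (by omega)
      have h7 : (2 : ℝ) ^ (Fintype.card ι * S.card) ≤ 2 ^ (Fintype.card ι * n) :=
        pow_le_pow_right₀ (by norm_num) h6
      exact mul_le_mul_of_nonneg_right h7 hε
    have h8 : |∑ S ∈ T.powerset.erase T, acoef t0 p α ξ S| ≤
        ((2 : ℝ) ^ (Fintype.card ι) - 1) * (2 ^ (Fintype.card ι * n) * ε) := by
      calc |∑ S ∈ T.powerset.erase T, acoef t0 p α ξ S| ≤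
            ∑ S ∈ T.powerset.erase T, |acoef t0 p α ξ S| := Finset.abs_sum_le_sum_abs _ _
        _ ≤ ∑ S ∈ T.powerset.erase T, 2 ^ (Fintype.card ι * n) * ε := Finset.sum_le_sum h4
        _ = ((T.powerset.erase T).card : ℝ) * (2 ^ (Fintype.card ι * n) * ε) := by
            rw [Finset.sum_const, nsmul_eq_mul]
        _ ≤ ((2 : ℝ) ^ (Fintype.card ι) - 1) * (2 ^ (Fintype.card ι * n) * ε) := by
            have h9 : (T.powerset.erase T).card + 1 = 2 ^ T.card := by
              rw [card_erase_of_mem h2, card_powerset]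
              have : 0 < 2 ^ T.card := by positivity
              omega
            have h10 : ((T.powerset.erase T).card : ℝ) + 1 ≤ 2 ^ (Fintype.card ι) := by
              have h11 : (T.powerset.erase T).card + 1 ≤ 2 ^ (Fintype.card ι) := by
                rw [h9]
                exact Nat.pow_le_pow_right (by norm_num) (Finset.card_le_univ T)
              exact_mod_cast h11
            apply mul_le_mul_of_nonneg_right _ (by positivity)
            linarith
    have h9 : |acoef t0 p α ξ T| ≤ ε + ((2 : ℝ) ^ (Fintype.card ι) - 1) *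
        (2 ^ (Fintype.card ι * n) * ε) := by
      rw [h3]
      refine (abs_sub _ _).trans ?_
      have := h T hTk
      linarith
    refine h9.trans ?_
    have h10 : T.card = n + 1 := by omega
    rw [h10, mul_add, mul_one, pow_add]
    have h11 : (1 : ℝ) ≤ 2 ^ (Fintype.card ι * n) := one_le_pow₀ (by norm_num)
    nlinarith

/-- the slopes on level `i` are determined by the cube sums, if everything above level `i` is known -/
theorem config (i : ℕ) (hi : 2 * i < Fintype.card ι) (t0 : ℝ) (p : ι → ℝ) (P ρ ε : ℝ)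
    (hρ : 0 < ρ) (hP : 0 < P) (hp : ∀ l, |p l| ≤ P) (hp2 : ∀ l, P * ρ ≤ |p l|)
    (α ξ : Finset ι → ℝ) (hα : ∀ S : Finset ι, i < S.card → α S = 0)
    (hξ : ∀ S : Finset ι, i < S.card → ξ S = 0)
    (h : ∀ ω : Finset ι, ω.card ≤ i + 1 →
      |∑ S ∈ ω.powerset, (α S + (t0 + ∑ l ∈ ω, p l) * ξ S)| ≤ ε) :
    ∀ S : Finset ι, S.card = i →
      |ξ S| ≤ 2 ^ (Fintype.card ι * (i + 2)) * ε / (P * ρ ^ (i + 1)) := by
  intro S hS
  have hε : 0 ≤ ε := le_trans (abs_nonneg _) (h ∅ (by simp))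
  have h1 : ∀ T : Finset ι, T.card = i + 1 → |∑ l ∈ T, p l * ξ (T.erase l)| ≤
      2 ^ (Fintype.card ι * (i + 1)) * ε := by
    intro T hT
    have h2 := acoef_bound t0 p α ξ (i + 1) ε h (i + 1) T (by omega) (by omega)
    unfold acoef at h2
    rw [hα T (by omega), hξ T (by omega), hT] at h2
    simpa using h2
  have h2 := weighted_inv i hi p P ρ (2 ^ (Fintype.card ι * (i + 1)) * ε) hρ hP (by positivity)
    hp hp2 ξ h1 S hS
  refine h2.trans (le_of_eq ?_)
  rw [← mul_assoc, ← pow_add]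
  congr 3
  ring

end Pool.Agent.Helper33.HD
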