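import Mathlib

/-! Helper33: the up operator of the Boolean lattice is injective below the middle level, with a weighted
quantitative form. -/

namespace Pool.Agent.Helper33.HD

open Finset
open scoped Classical

variable {ι : Type*} [Fintype ι]

/-- `l`-component of the up operator -/
noncomputable def upc (G : Finset ι → ℝ) (l : ι) (T : Finset ι) : ℝ :=
  if l ∈ T then G (T.erase l) else 0

/-- `l`-component of the down operator -/
noncomputable def dnc (G : Finset ι → ℝ) (l : ι) (T : Finset ι) : ℝ :=
  if l ∈ T then 0 else G (insert l T)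

/-- adding or removing the elements of `A` -/
noncomputable def tog (A : Finset ι) : Equiv.Perm (Finset ι) :=
  Function.Involutive.toPerm (fun T => symmDiff T A) (fun T => symmDiff_symmDiff_cancel_right A T)

theorem sum_upc_ne (G : Finset ι → ℝ) {l l' : ι} (h : l ≠ l') :
    ∑ T : Finset ι, upc G l T * upc G l' T = ∑ T : Finset ι, dnc G l T * dnc G l' T := by
  rw [← Equiv.sum_comp (tog {l, l'}) (fun T => upc G l T * upc G l' T)]
  apply Finset.sum_congr rfl
  intro R _
  change upc G l (symmDiff R {l, l'}) * upc G l' (symmDiff R {l, l'}) = _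
  simp only [upc, dnc]
  have hm1 : l ∈ symmDiff R {l, l'} ↔ l ∉ R := by
    simp [Finset.mem_symmDiff]
  have hm2 : l' ∈ symmDiff R {l, l'} ↔ l' ∉ R := by
    simp [Finset.mem_symmDiff]
  by_cases h1 : l ∈ R
  · rw [if_neg (fun hc => (hm1.mp hc) h1), if_pos h1]
    simp
  · by_cases h2 : l' ∈ R
    · rw [if_neg (fun hc => (hm2.mp hc) h2), if_pos h2]
      simp
    · rw [if_pos (hm1.mpr h1), if_pos (hm2.mpr h2), if_neg h1, if_neg h2]
      have e1 : (symmDiff R {l, l'}).erase l = insert l' R := by
        ext x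
        simp only [mem_erase, mem_symmDiff, mem_insert, mem_singleton]
        constructor
        · rintro ⟨hx, h | h⟩
          · exact Or.inr h.1
          · rcases h.1 with h3 | h3
            · exact absurd h3 hx
            · exact Or.inl h3
        · rintro (rfl | hx)
          · exact ⟨h.symm, Or.inr ⟨Or.inr rfl, h2⟩⟩
          · refine ⟨fun hc => h1 (hc ▸ hx), Or.inl ⟨hx, ?_⟩⟩
            rintro (rfl | rfl)
            · exact h1 hx
            · exact h2 hx
      have e2 : (symmDiff R {l, l'}).erase l' = insert l R := by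
        ext x
        simp only [mem_erase, mem_symmDiff, mem_insert, mem_singleton]
        constructor
        · rintro ⟨hx, h | h⟩
          · exact Or.inr h.1
          · rcases h.1 with h3 | h3
            · exact Or.inl h3
            · exact absurd h3 hx
        · rintro (rfl | hx)
          · exact ⟨h, Or.inr ⟨Or.inl rfl, h1⟩⟩
          · refine ⟨fun hc => h2 (hc ▸ hx), Or.inl ⟨hx, ?_⟩⟩
            rintro (rfl | rfl)
            · exact h1 hx
            · exact h2 hx
      rw [e1, e2, mul_comm]

theorem sum_upc_eq (G : Finset ι → ℝ) (l : ι) :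
    ∑ T : Finset ι, upc G l T * upc G l T = ∑ T : Finset ι, if l ∈ T then 0 else G T ^ 2 := by
  rw [← Equiv.sum_comp (tog {l}) (fun T => upc G l T * upc G l T)]
  apply Finset.sum_congr rfl
  intro R _
  change upc G l (symmDiff R {l}) * upc G l (symmDiff R {l}) = _
  simp only [upc]
  have hm1 : l ∈ symmDiff R {l} ↔ l ∉ R := by
    simp [Finset.mem_symmDiff]
  by_cases h1 : l ∈ R
  · rw [if_neg (fun hc => (hm1.mp hc) h1), if_pos h1]
    simp
  · rw [if_pos (hm1.mpr h1), if_neg h1]
    have e1 : (symmDiff R {l}).erase l = R := by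
      ext x
      simp only [mem_erase, mem_symmDiff, mem_singleton]
      constructor
      · rintro ⟨hx, h | h⟩
        · exact h.1
        · exact absurd h.1 hx
      · intro hx
        exact ⟨fun hc => h1 (hc ▸ hx), Or.inl ⟨hx, fun hc => h1 (hc ▸ hx)⟩⟩
    rw [e1]
    ring

theorem sum_dnc_eq (G : Finset ι → ℝ) (l : ι) :
    ∑ T : Finset ι, dnc G l T * dnc G l T = ∑ T : Finset ι, if l ∈ T then G T ^ 2 else 0 := by
  rw [← Equiv.sum_comp (tog {l}) (fun T => dnc G l T * dnc G l T)]
  apply Finset.sum_congr rfl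
  intro R _
  change dnc G l (symmDiff R {l}) * dnc G l (symmDiff R {l}) = _
  simp only [dnc]
  have hm1 : l ∈ symmDiff R {l} ↔ l ∉ R := by
    simp [Finset.mem_symmDiff]
  by_cases h1 : l ∈ R
  · rw [if_neg (fun hc => (hm1.mp hc) h1), if_pos h1]
    have e1 : insert l (symmDiff R {l}) = R := by
      ext x
      simp only [mem_insert, mem_symmDiff, mem_singleton]
      constructor
      · rintro (rfl | h | h)
        · exact h1
        · exact h.1
        · exact absurd (h.1 ▸ h1) h.2
      · intro hx
        by_cases hxl : x = l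
        · exact Or.inl hxl
        · exact Or.inr (Or.inl ⟨hx, hxl⟩)
    rw [e1]
    ring
  · rw [if_pos (hm1.mpr h1), if_neg h1]
    simp

/-- commutation of the up and down operators -/
theorem up_down (G : Finset ι → ℝ) :
    ∑ T : Finset ι, (∑ l, upc G l T) ^ 2 =
      ∑ T : Finset ι, (∑ l, dnc G l T) ^ 2 +
        ∑ T : Finset ι, ((Fintype.card ι : ℝ) - 2 * T.card) * G T ^ 2 := by
  have h1 : ∀ (u : ι → Finset ι → ℝ), ∑ T : Finset ι, (∑ l, u l T) ^ 2 =
      ∑ l, ∑ l', ∑ T : Finset ι, u l T * u l' T := by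
    intro u
    calc ∑ T : Finset ι, (∑ l, u l T) ^ 2 = ∑ T : Finset ι, ∑ l, ∑ l', u l T * u l' T := by
          apply Finset.sum_congr rfl
          intro T _
          rw [sq, Finset.sum_mul_sum]
      _ = _ := by
          rw [Finset.sum_comm]
          apply Finset.sum_congr rfl
          intro l _
          rw [Finset.sum_comm]
  rw [h1, h1]
  have h2 : ∀ l l', ∑ T : Finset ι, upc G l T * upc G l' T =
      ∑ T : Finset ι, dnc G l T * dnc G l' T +
        (if l = l' then ∑ T : Finset ι, (if l ∈ T then -(G T ^ 2) else G T ^ 2) else 0) := by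
    intro l l'
    by_cases hl : l = l'
    · subst hl
      rw [if_pos rfl, sum_upc_eq, sum_dnc_eq, ← Finset.sum_add_distrib]
      apply Finset.sum_congr rfl
      intro T _
      by_cases hT : l ∈ T
      · simp [hT]
      · simp [hT]
    · rw [if_neg hl, add_zero]
      exact sum_upc_ne G hl
  simp only [h2, Finset.sum_add_distrib]
  congr 1
  simp only [Finset.sum_ite_eq, Finset.mem_univ, if_true]
  rw [Finset.sum_comm]
  apply Finset.sum_congr rfl
  intro T _
  have h3 : ∀ l, (if l ∈ T then -(G T ^ 2) else G T ^ 2) =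
      G T ^ 2 - 2 * (if l ∈ T then G T ^ 2 else 0) := by
    intro l
    by_cases hT : l ∈ T
    · simp [hT]
      ring
    · simp [hT]
  simp only [h3, Finset.sum_sub_distrib, Finset.sum_const, ← Finset.mul_sum, Finset.card_univ,
    nsmul_eq_mul, Finset.sum_ite_mem, Finset.univ_inter]
  ring

/-- lower bound for the up operator on level `i` -/
theorem up_ge (i : ℕ) (hi : 2 * i < Fintype.card ι) (g : Finset ι → ℝ) :
    ∑ S ∈ powersetCard i univ, g S ^ 2 ≤
      ∑ T ∈ powersetCard (i + 1) univ, (∑ l ∈ T, g (T.erase l)) ^ 2 := by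
  have h1 := up_down (fun S : Finset ι => if S.card = i then g S else 0)
  have h2 : ∑ T : Finset ι, (∑ l, upc (fun S : Finset ι => if S.card = i then g S else 0) l T) ^ 2 =
      ∑ T ∈ powersetCard (i + 1) univ, (∑ l ∈ T, g (T.erase l)) ^ 2 := by
    rw [← Finset.sum_subset (Finset.subset_univ (powersetCard (i + 1) (univ : Finset ι)))]
    · apply Finset.sum_congr rfl
      intro T hT
      rw [mem_powersetCard] at hT
      congr 1
      simp only [upc]
      rw [← Finset.sum_filter, Finset.filter_mem_eq_inter, Finset.univ_inter]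
      apply Finset.sum_congr rfl
      intro l hl
      rw [if_pos]
      rw [card_erase_of_mem hl, hT.2]
      rfl
    · intro T _ hT
      rw [mem_powersetCard] at hT
      have hT' : T.card ≠ i + 1 := fun hc => hT ⟨subset_univ _, hc⟩
      have : ∑ l, upc (fun S : Finset ι => if S.card = i then g S else 0) l T = 0 := by
        apply Finset.sum_eq_zero
        intro l _
        simp only [upc]
        by_cases hl : l ∈ T
        · rw [if_pos hl, if_neg]
          rw [card_erase_of_mem hl]
          have : 0 < T.card := Finset.card_pos.mpr ⟨l, hl⟩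
          omega
        · rw [if_neg hl]
      rw [this]
      ring
  have h3 : ∑ S ∈ powersetCard i univ, g S ^ 2 ≤
      ∑ T : Finset ι, ((Fintype.card ι : ℝ) - 2 * T.card) * (if T.card = i then g T else 0) ^ 2 := by
    rw [← Finset.sum_subset (Finset.subset_univ (powersetCard i (univ : Finset ι)))]
    · apply Finset.sum_le_sum
      intro S hS
      rw [mem_powersetCard] at hS
      rw [if_pos hS.2, hS.2]
      have : (1 : ℝ) ≤ (Fintype.card ι : ℝ) - 2 * i := by
        have : 2 * i + 1 ≤ Fintype.card ι := hi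
        have h4 : ((2 * i + 1 : ℕ) : ℝ) ≤ Fintype.card ι := by exact_mod_cast this
        push_cast at h4
        linarith
      nlinarith [sq_nonneg (g S)]
    · intro T _ hT
      rw [mem_powersetCard] at hT
      have hT' : T.card ≠ i := fun hc => hT ⟨subset_univ _, hc⟩
      rw [if_neg hT']
      ring
  have h4 : 0 ≤ ∑ T : Finset ι, (∑ l, dnc (fun S : Finset ι => if S.card = i then g S else 0) l T) ^ 2 :=
    Finset.sum_nonneg (fun T _ => sq_nonneg _)
  rw [← h2, h1]
  linarith

/-- weighted inverse of the up operator -/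
theorem weighted_inv (i : ℕ) (hi : 2 * i < Fintype.card ι) (p : ι → ℝ) (P ρ C : ℝ) (hρ : 0 < ρ)
    (hP : 0 < P) (hC : 0 ≤ C) (hp : ∀ l, |p l| ≤ P) (hp2 : ∀ l, P * ρ ≤ |p l|)
    (z : Finset ι → ℝ)
    (h : ∀ T : Finset ι, T.card = i + 1 → |∑ l ∈ T, p l * z (T.erase l)| ≤ C) :
    ∀ S : Finset ι, S.card = i →
      |z S| ≤ 2 ^ (Fintype.card ι) * C / (P * ρ ^ (i + 1)) := by
  intro S hS
  set q : Finset ι → ℝ := fun T => ∏ l ∈ T, p l with hq
  have hpne : ∀ l, p l ≠ 0 := by
    intro l hl
    have := hp2 l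
    rw [hl, abs_zero] at this
    have : 0 < P * ρ := by positivity
    linarith
  have hq0 : ∀ T, q T ≠ 0 := fun T => Finset.prod_ne_zero_iff.mpr (fun l _ => hpne l)
  have hqup : ∀ T, |q T| ≤ P ^ T.card := by
    intro T
    simp only [hq]
    rw [Finset.abs_prod]
    calc ∏ l ∈ T, |p l| ≤ ∏ l ∈ T, P := Finset.prod_le_prod (fun l _ => abs_nonneg _) (fun l _ => hp l)
      _ = P ^ T.card := by rw [Finset.prod_const]
  have hqlo : ∀ T, (P * ρ) ^ T.card ≤ |q T| := by
    intro T
    simp only [hq]
    rw [Finset.abs_prod]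
    calc (P * ρ) ^ T.card = ∏ l ∈ T, (P * ρ) := by rw [Finset.prod_const]
      _ ≤ ∏ l ∈ T, |p l| := Finset.prod_le_prod (fun l _ => by positivity) (fun l _ => hp2 l)
  have h1 := up_ge i hi (fun S => z S / q S)
  have h2 : ∀ T ∈ powersetCard (i + 1) (univ : Finset ι),
      (∑ l ∈ T, z (T.erase l) / q (T.erase l)) ^ 2 ≤ (C / (P * ρ) ^ (i + 1)) ^ 2 := by
    intro T hT
    rw [mem_powersetCard] at hT
    have h3 : ∑ l ∈ T, z (T.erase l) / q (T.erase l) = (∑ l ∈ T, p l * z (T.erase l)) / q T := by
      rw [Finset.sum_div]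
      apply Finset.sum_congr rfl
      intro l hl
      have h4 : q T = p l * q (T.erase l) := by
        simp only [hq]
        rw [Finset.mul_prod_erase T p hl]
      rw [h4]
      field_simp [hpne l, hq0 (T.erase l)]
    rw [h3]
    have h5 : |(∑ l ∈ T, p l * z (T.erase l)) / q T| ≤ C / (P * ρ) ^ (i + 1) := by
      rw [abs_div]
      have h6 := h T hT.2
      have h7 := hqlo T
      rw [hT.2] at h7
      gcongr
    rw [← sq_abs]
    gcongr
  have h3 : (z S / q S) ^ 2 ≤ (2 ^ (Fintype.card ι) * (C / (P * ρ) ^ (i + 1))) ^ 2 := by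
    calc (z S / q S) ^ 2 ≤ ∑ S ∈ powersetCard i univ, (z S / q S) ^ 2 := by
          apply Finset.single_le_sum (f := fun S => (z S / q S) ^ 2) (fun S _ => sq_nonneg _)
          rw [mem_powersetCard]
          exact ⟨subset_univ _, hS⟩
      _ ≤ ∑ T ∈ powersetCard (i + 1) (univ : Finset ι), (C / (P * ρ) ^ (i + 1)) ^ 2 :=
          h1.trans (Finset.sum_le_sum h2)
      _ = ((powersetCard (i + 1) (univ : Finset ι)).card : ℝ) * (C / (P * ρ) ^ (i + 1)) ^ 2 := by
          rw [Finset.sum_const, nsmul_eq_mul]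
      _ ≤ (2 ^ (Fintype.card ι)) * (C / (P * ρ) ^ (i + 1)) ^ 2 := by
          have h8 : (powersetCard (i + 1) (univ : Finset ι)).card ≤ 2 ^ (Fintype.card ι) := by
            calc (powersetCard (i + 1) (univ : Finset ι)).card ≤ (powerset (univ : Finset ι)).card :=
                  Finset.card_le_card (fun T hT => by
                    rw [mem_powerset]
                    exact subset_univ _)
              _ = 2 ^ (Fintype.card ι) := by rw [card_powerset, card_univ]
          have h9 : ((powersetCard (i + 1) (univ : Finset ι)).card : ℝ) ≤ 2 ^ (Fintype.card ι) := by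
            exact_mod_cast h8
          gcongr
      _ ≤ (2 ^ (Fintype.card ι) * (C / (P * ρ) ^ (i + 1))) ^ 2 := by
          have h10 : (1 : ℝ) ≤ 2 ^ (Fintype.card ι) := one_le_pow₀ (by norm_num)
          have h11 : (2 : ℝ) ^ (Fintype.card ι) ≤ (2 ^ (Fintype.card ι)) ^ 2 := by
            nlinarith
          rw [mul_pow (2 ^ (Fintype.card ι)) (C / (P * ρ) ^ (i + 1)) 2]
          exact mul_le_mul_of_nonneg_right h11 (sq_nonneg _)
  have h4 : |z S / q S| ≤ 2 ^ (Fintype.card ι) * (C / (P * ρ) ^ (i + 1)) :=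
    abs_le_of_sq_le_sq h3 (by positivity)
  rw [abs_div, div_le_iff₀ (abs_pos.mpr (hq0 S))] at h4
  have h5 := hqup S
  rw [hS] at h5
  calc |z S| ≤ 2 ^ (Fintype.card ι) * (C / (P * ρ) ^ (i + 1)) * |q S| := h4
    _ ≤ 2 ^ (Fintype.card ι) * (C / (P * ρ) ^ (i + 1)) * P ^ i := by gcongr
    _ = 2 ^ (Fintype.card ι) * C / (P * ρ ^ (i + 1)) := by
      rw [mul_pow, pow_succ P i]
      field_simp

end Pool.Agent.Helper33.HD
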